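import Pool.Agent.Q199.FS.Main

set_option autoImplicit false

open Filter Topology ComplexConjugate
open scoped ENNReal

namespace Pool.Agent.Q199.FS

section PW

variable (P W : ℕ → (H →L[ℂ] H))

/-- finite sections -/
noncomputable def t (n : ℕ) : H →L[ℂ] H := P n * T * P n
noncomputable def s (n : ℕ) : H →L[ℂ] H := P n * S * P n
noncomputable def X (n : ℕ) : H →L[ℂ] H := P n - t P n * s P n
noncomputable def Y (n : ℕ) : H →L[ℂ] H := P n - s P n * t P n
noncomputable def A (n : ℕ) : H →L[ℂ] H := X P n * Y P n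

lemma t_apply (n : ℕ) (x : H) : t P n x = P n (T (P n x)) := rfl
lemma s_apply (n : ℕ) (x : H) : s P n x = P n (S (P n x)) := rfl
lemma X_apply (n : ℕ) (x : H) : X P n x = P n x - t P n (s P n x) := rfl
lemma Y_apply (n : ℕ) (x : H) : Y P n x = P n x - s P n (t P n x) := rfl
lemma A_apply (n : ℕ) (x : H) : A P n x = X P n (Y P n x) := rfl

variable {P W}
variable (hP : ∀ (n : ℕ) (x : H) (j : ℕ), (P n x) j = if j ≤ n then x j else 0)
variable (hW : ∀ (n : ℕ) (x : H) (j : ℕ), (W n x) j = if j ≤ n then x (n - j) else 0)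

include hP in
lemma norm_t_le (n : ℕ) (x : H) : ‖t P n x‖ ≤ ‖x‖ := by
  rw [t_apply]
  refine (norm_P_le hP n _).trans ?_
  rw [norm_T]
  exact norm_P_le hP n x

include hP in
lemma norm_s_le (n : ℕ) (x : H) : ‖s P n x‖ ≤ ‖x‖ := by
  rw [s_apply]
  refine (norm_P_le hP n _).trans ?_
  exact (norm_S _).trans (norm_P_le hP n x)

include hP in
lemma norm_X_le (n : ℕ) (x : H) : ‖X P n x‖ ≤ 2 * ‖x‖ := by
  rw [X_apply]
  have h1 := norm_P_le hP n x
  have h2 := norm_t_le hP n (s P n x)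
  have h3 := norm_s_le hP n x
  have := norm_sub_le (P n x) (t P n (s P n x))
  linarith

include hP in
lemma norm_Y_le (n : ℕ) (x : H) : ‖Y P n x‖ ≤ 2 * ‖x‖ := by
  rw [Y_apply]
  have h1 := norm_P_le hP n x
  have h2 := norm_s_le hP n (t P n x)
  have h3 := norm_t_le hP n x
  have := norm_sub_le (P n x) (s P n (t P n x))
  linarith

include hP in
lemma inner_t (n : ℕ) (x y : H) : inner ℂ (t P n x) y = inner ℂ x (s P n y) := by
  rw [t_apply, s_apply, inner_P hP, ← inner_S, inner_P hP]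

include hP in
lemma inner_s (n : ℕ) (x y : H) : inner ℂ (s P n x) y = inner ℂ x (t P n y) := by
  rw [t_apply, s_apply, inner_P hP, inner_S', inner_P hP]

include hP in
lemma inner_X (n : ℕ) (x y : H) : inner ℂ (X P n x) y = inner ℂ x (X P n y) := by
  rw [X_apply, X_apply, inner_sub_left, inner_sub_right, inner_P hP, inner_t hP, inner_s hP]

include hP in
lemma t_P (n : ℕ) (x : H) : t P n (P n x) = t P n x := by
  rw [t_apply, t_apply, PP hP]

include hP in
lemma P_t (n : ℕ) (x : H) : P n (t P n x) = t P n x := by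
  rw [t_apply, PP hP]

include hP in
lemma s_P (n : ℕ) (x : H) : s P n (P n x) = s P n x := by
  rw [s_apply, s_apply, PP hP]

include hP in
lemma P_s (n : ℕ) (x : H) : P n (s P n x) = s P n x := by
  rw [s_apply, PP hP]

include hP in
lemma X_P (n : ℕ) (x : H) : X P n (P n x) = X P n x := by
  rw [X_apply, X_apply, PP hP, s_P hP]

include hP in
lemma Y_P (n : ℕ) (x : H) : Y P n (P n x) = Y P n x := by
  rw [Y_apply, Y_apply, PP hP, t_P hP]

include hP hW in
lemma W_col (n j : ℕ) (hj : j ≤ n) : W n (S (e (n - j))) = P n (v j) := by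
  apply H_ext
  intro i
  rw [hW, hP]
  by_cases h : i ≤ n
  · rw [if_pos h, if_pos h, S_e, v_apply]
    by_cases h2 : j ≤ i
    · rw [if_pos (by omega), if_pos h2, show n - j - (n - i) = i - j by omega]
    · rw [if_neg (by omega), if_neg h2]
  · rw [if_neg h, if_neg h]

include hP hW in
lemma W_t_W (n : ℕ) (x : H) : W n (t P n (W n x)) = s P n x := by
  rw [t_apply, WP hP hW, PW hP hW, s_apply]
  apply H_ext
  intro j
  rw [hW, hP]
  by_cases h : j ≤ n
  · rw [if_pos h, if_pos h, T_apply, S_apply, ← inner_W hW, W_col hP hW n j h, inner_P hP]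
  · rw [if_neg h, if_neg h]

include hP hW in
lemma W_t (n : ℕ) (x : H) : W n (t P n x) = s P n (W n x) := by
  rw [← W_t_W hP hW, WW hP hW, t_P hP]

include hP hW in
lemma W_s (n : ℕ) (x : H) : W n (s P n x) = t P n (W n x) := by
  have h := W_t hP hW n (W n x)
  rw [WW hP hW, s_P hP] at h
  rw [← h, WW hP hW, P_t hP]

include hP hW in
lemma W_X (n : ℕ) (x : H) : W n (X P n x) = Y P n (W n x) := by
  rw [X_apply, Y_apply, map_sub, WP hP hW, W_t hP hW, W_s hP hW, PW hP hW]

include hP hW in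
lemma W_Y (n : ℕ) (x : H) : W n (Y P n x) = X P n (W n x) := by
  rw [X_apply, Y_apply, map_sub, WP hP hW, W_s hP hW, W_t hP hW, PW hP hW]

include hP in
lemma t_tendsto {x : H} {y : ℕ → H} (hy : Tendsto y atTop (𝓝 x)) : Tendsto (fun n => t P n (y n)) atTop (𝓝 (T x)) := by
  have h1 : ∀ {z : H} {w : ℕ → H}, Tendsto w atTop (𝓝 z) → Tendsto (fun n => P n (w n)) atTop (𝓝 z) := by
    intro z w hw
    have h2 : Tendsto (fun n => P n (w n) - P n z) atTop (𝓝 0) := by
      apply squeeze_zero_norm (a := fun n => ‖w n - z‖)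
      · intro n
        rw [← map_sub]
        exact norm_P_le hP n _
      · have := hw.sub_const z
        rw [sub_self] at this
        exact tendsto_zero_iff_norm_tendsto_zero.1 this
    have h3 := h2.add (P_tendsto hP z)
    rw [zero_add] at h3
    refine h3.congr fun n => ?_
    abel
  have h2 := h1 hy
  have h3 := (T.continuous.tendsto x).comp h2
  exact h1 h3

include hP in
lemma s_tendsto {x : H} {y : ℕ → H} (hy : Tendsto y atTop (𝓝 x)) : Tendsto (fun n => s P n (y n)) atTop (𝓝 (S x)) := by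
  have h1 : ∀ {z : H} {w : ℕ → H}, Tendsto w atTop (𝓝 z) → Tendsto (fun n => P n (w n)) atTop (𝓝 z) := by
    intro z w hw
    have h2 : Tendsto (fun n => P n (w n) - P n z) atTop (𝓝 0) := by
      apply squeeze_zero_norm (a := fun n => ‖w n - z‖)
      · intro n
        rw [← map_sub]
        exact norm_P_le hP n _
      · have := hw.sub_const z
        rw [sub_self] at this
        exact tendsto_zero_iff_norm_tendsto_zero.1 this
    have h3 := h2.add (P_tendsto hP z)
    rw [zero_add] at h3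
    refine h3.congr fun n => ?_
    abel
  have h2 := h1 hy
  have h3 := (S.continuous.tendsto x).comp h2
  exact h1 h3

include hP in
lemma Y_tendsto (x : H) : Tendsto (fun n => Y P n x) atTop (𝓝 0) := by
  have h1 := s_tendsto hP (t_tendsto hP (tendsto_const_nhds (x := x)))
  have h2 := (P_tendsto hP x).sub h1
  rw [S_T, sub_self] at h2
  exact h2

include hP in
lemma X_tendsto (x : H) : Tendsto (fun n => X P n x) atTop (𝓝 (x - T (S x))) := by
  have h1 := t_tendsto hP (s_tendsto hP (tendsto_const_nhds (x := x)))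
  exact (P_tendsto hP x).sub h1

include hP in
lemma A_tendsto (x : H) : Tendsto (fun n => A P n x) atTop (𝓝 0) := by
  apply squeeze_zero_norm (a := fun n => 2 * ‖Y P n x‖)
  · intro n
    rw [A_apply]
    exact norm_X_le hP n _
  · have := tendsto_zero_iff_norm_tendsto_zero.1 (Y_tendsto hP x)
    simpa using this.const_mul 2

include hP hW in
lemma WAW_tendsto (x : H) : Tendsto (fun n => W n (A P n (W n x))) atTop (𝓝 0) := by
  have h1 : ∀ n, W n (A P n (W n x)) = Y P n (X P n x) := by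
    intro n
    rw [A_apply, W_X hP hW, W_Y hP hW, WW hP hW, X_P hP]
  simp_rw [h1]
  have h2 : Tendsto (fun n => ‖X P n x - (x - T (S x))‖) atTop (𝓝 0) := by
    have := (X_tendsto hP x).sub_const (x - T (S x))
    rw [sub_self] at this
    exact tendsto_zero_iff_norm_tendsto_zero.1 this
  have h3 := tendsto_zero_iff_norm_tendsto_zero.1 (Y_tendsto hP (x - T (S x)))
  have h4 : Tendsto (fun n => 2 * ‖X P n x - (x - T (S x))‖ + ‖Y P n (x - T (S x))‖) atTop (𝓝 0) := by
    simpa using (h2.const_mul 2).add h3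
  apply squeeze_zero_norm (a := fun n => 2 * ‖X P n x - (x - T (S x))‖ + ‖Y P n (x - T (S x))‖) _ h4
  intro n
  have h5 : Y P n (X P n x) = Y P n (X P n x - (x - T (S x))) + Y P n (x - T (S x)) := by
    rw [← map_add]
    congr 1
    abel
  rw [h5]
  refine (norm_add_le _ _).trans ?_
  have := norm_Y_le hP n (X P n x - (x - T (S x)))
  linarith

/-! ### the test vectors -/

include hP hW in
lemma form_eq (n : ℕ) (u : H) (hu : P n u = u) :
    inner ℂ u (A P n (W n u)) = inner ℂ (u - t P n (s P n u)) (W n (u - t P n (s P n u))) := by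
  have h1 : X P n u = u - t P n (s P n u) := by rw [X_apply, hu]
  rw [← h1, A_apply, ← W_X hP hW, inner_X hP]

include hP hW in
lemma form_lower (n : ℕ) (u : H) (hu : P n u = u) (hu1 : ‖u‖ ≤ 1) (δ : ℝ) (hδ : ‖s P n u‖ ≤ δ) :
    ‖inner ℂ u (W n u)‖ - 2 * δ - δ ^ 2 ≤ ‖inner ℂ u (A P n (W n u))‖ := by
  rw [form_eq hP hW n u hu]
  set w := t P n (s P n u) with hw
  have hw1 : ‖w‖ ≤ δ := (norm_t_le hP n _).trans hδ
  have hδ0 : 0 ≤ δ := (norm_nonneg _).trans hδ
  have h1 : inner ℂ (u - w) (W n (u - w)) =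
      inner ℂ u (W n u) - (inner ℂ u (W n w) + inner ℂ w (W n u) - inner ℂ w (W n w)) := by
    rw [map_sub, inner_sub_left, inner_sub_right, inner_sub_right]
    ring
  rw [h1]
  have h2 : ‖inner ℂ u (W n w)‖ ≤ δ := by
    refine (norm_inner_le_norm _ _).trans ?_
    have := norm_W_le hP hW n w
    calc ‖u‖ * ‖W n w‖ ≤ 1 * δ := mul_le_mul hu1 (this.trans hw1) (norm_nonneg _) zero_le_one
      _ = δ := one_mul δ
  have h3 : ‖inner ℂ w (W n u)‖ ≤ δ := by
    refine (norm_inner_le_norm _ _).trans ?_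
    have := norm_W_le hP hW n u
    calc ‖w‖ * ‖W n u‖ ≤ δ * 1 := mul_le_mul hw1 (this.trans hu1) (norm_nonneg _) hδ0
      _ = δ := mul_one δ
  have h4 : ‖inner ℂ w (W n w)‖ ≤ δ ^ 2 := by
    refine (norm_inner_le_norm _ _).trans ?_
    have := norm_W_le hP hW n w
    calc ‖w‖ * ‖W n w‖ ≤ δ * δ := mul_le_mul hw1 (this.trans hw1) (norm_nonneg _) hδ0
      _ = δ ^ 2 := by ring
  have h5 := norm_sub_norm_le (inner ℂ u (W n u)) (inner ℂ u (W n w) + inner ℂ w (W n u) - inner ℂ w (W n w))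
  have h6 := norm_sub_le (inner ℂ u (W n w) + inner ℂ w (W n u)) (inner ℂ w (W n w))
  have h7 := norm_add_le (inner ℂ u (W n w)) (inner ℂ w (W n u))
  linarith

lemma geom_aux (r : ℝ) (n : ℕ) : ∑ j ∈ Finset.range (n + 1), (1 - r ^ 2) * (r ^ 2) ^ j = 1 - (r ^ 2) ^ (n + 1) := by
  rw [← Finset.mul_sum]
  have := mul_neg_geom_sum (r ^ 2) (n + 1)
  exact this

include hP in
lemma norm_tail (n : ℕ) (r : ℝ) (h0 : 0 ≤ r) (h1 : r < 1) :
    ‖ker r h0 h1 - P n (ker r h0 h1)‖ = r ^ (n + 1) := by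
  set k := ker r h0 h1 with hk
  have e1 : ‖P n k‖ ^ 2 = 1 - (r ^ 2) ^ (n + 1) := by
    rw [← geom_aux]
    refine (norm_sq_H (P n k)).unique ?_
    have : ∑ j ∈ Finset.range (n + 1), (1 - r ^ 2) * (r ^ 2) ^ j = ∑ j ∈ Finset.range (n + 1), ‖(P n k) j‖ ^ 2 := by
      apply Finset.sum_congr rfl
      intro j hj
      rw [hP, if_pos (by have := Finset.mem_range.1 hj; omega), hk, ker_apply, kfun_sq h0 h1]
    rw [this]
    apply hasSum_sum_of_ne_finset_zero
    intro b hb
    rw [hP, if_neg (fun h => hb (Finset.mem_range.2 (by omega)))]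
    simp
  have e2 : ‖k‖ ^ 2 = ‖k - P n k‖ ^ 2 + ‖P n k‖ ^ 2 := by
    have h : inner ℂ (k - P n k) (P n k) = 0 := by
      rw [inner_sub_left, inner_P hP, PP hP, sub_self]
    have h2 := norm_add_sq_eq_norm_sq_add_norm_sq_of_inner_eq_zero (k - P n k) (P n k) h
    rw [sub_add_cancel] at h2
    nlinarith
  rw [norm_ker] at e2
  have e3 : ‖k - P n k‖ ^ 2 = (r ^ (n + 1)) ^ 2 := by
    rw [← pow_mul, mul_comm (n + 1) 2, pow_mul]
    linarith
  exact (sq_eq_sq₀ (norm_nonneg _) (by positivity)).1 e3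

include hP in
lemma norm_s_ker (n : ℕ) (r : ℝ) (h0 : 0 ≤ r) (h1 : r < 1) :
    ‖s P n (P n (ker r h0 h1))‖ ≤ Real.exp (-((1 + r) / (1 - r))) + r ^ (n + 1) := by
  rw [s_P hP, s_apply]
  refine (norm_P_le hP n _).trans ?_
  set k := ker r h0 h1 with hk
  have e1 : S (P n k) = S k - S (k - P n k) := by
    rw [← map_sub]
    congr 1
    abel
  rw [e1]
  refine (norm_sub_le _ _).trans ?_
  have e2 : ‖S k‖ = Real.exp (-((1 + r) / (1 - r))) := by
    rw [hk, S_ker, norm_smul, norm_ker, mul_one, Complex.norm_real, Real.norm_eq_abs, abs_of_pos (Real.exp_pos _)]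
  have e3 := norm_S (k - P n k)
  rw [norm_tail hP] at e3
  linarith

include hP hW in
lemma inner_ker (n : ℕ) (r : ℝ) (h0 : 0 ≤ r) (h1 : r < 1) :
    inner ℂ (P n (ker r h0 h1)) (W n (P n (ker r h0 h1))) = (((n + 1) * (1 - r ^ 2) * r ^ n : ℝ) : ℂ) := by
  rw [lp.inner_eq_tsum, tsum_eq_sum (s := Finset.range (n + 1))]
  · have : ∀ j ∈ Finset.range (n + 1), inner ℂ ((P n (ker r h0 h1)) j) ((W n (P n (ker r h0 h1))) j) =
        (((1 - r ^ 2) * r ^ n : ℝ) : ℂ) := by
      intro j hj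
      have hj' := Finset.mem_range.1 hj
      rw [hW, hP, hP, if_pos (by omega), if_pos (by omega), if_pos (by omega), ker_apply, ker_apply]
      unfold kfun
      simp only [RCLike.inner_apply, Complex.conj_ofReal]
      rw [← Complex.ofReal_mul]
      congr 1
      have hs : Real.sqrt (1 - r ^ 2) * Real.sqrt (1 - r ^ 2) = 1 - r ^ 2 := Real.mul_self_sqrt (by nlinarith)
      calc Real.sqrt (1 - r ^ 2) * r ^ (n - j) * (Real.sqrt (1 - r ^ 2) * r ^ j)
          = (Real.sqrt (1 - r ^ 2) * Real.sqrt (1 - r ^ 2)) * (r ^ (n - j) * r ^ j) := by ring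
        _ = (1 - r ^ 2) * r ^ n := by rw [hs, ← pow_add, show n - j + j = n by omega]
    rw [Finset.sum_congr rfl this, Finset.sum_const, Finset.card_range, nsmul_eq_mul]
    push_cast
    ring
  · intro b hb
    rw [hP, if_neg (fun h => hb (Finset.mem_range.2 (by omega)))]
    simp

/-! ### the parameters -/

noncomputable def d (m : ℕ) : ℝ := 1 / (2 * ((m : ℝ) + 1))

lemma d_pos (m : ℕ) : 0 < d m := by unfold d; positivity

lemma d_le (m : ℕ) : d m ≤ 1 / 2 := by
  unfold d
  rw [div_le_div_iff₀ (by positivity) (by positivity)]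
  have : (0:ℝ) ≤ m := Nat.cast_nonneg m
  linarith

noncomputable def rr (m : ℕ) : ℝ := Real.sqrt (1 - d m)

lemma rr_nonneg (m : ℕ) : 0 ≤ rr m := Real.sqrt_nonneg _

lemma rr_sq (m : ℕ) : rr m ^ 2 = 1 - d m := by
  unfold rr
  rw [Real.sq_sqrt]
  have := d_le m
  linarith

lemma rr_lt (m : ℕ) : rr m < 1 := by
  have h := rr_sq m
  have h2 := d_pos m
  by_contra h3
  push Not at h3
  nlinarith

lemma one_sub_rr (m : ℕ) : 1 - rr m ≤ d m := by
  have h := rr_sq m
  have h2 := rr_lt m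
  have h3 := rr_nonneg m
  nlinarith

noncomputable def ff (m : ℕ) : ℝ := Real.exp (-((1 + rr m) / (1 - rr m)))

lemma ff_pos (m : ℕ) : 0 < ff m := Real.exp_pos _

lemma ff_le (m : ℕ) : ff m ≤ Real.exp (-(m : ℝ)) := by
  unfold ff
  apply Real.exp_le_exp.2
  apply neg_le_neg
  have h1 := one_sub_rr m
  have h2 := rr_lt m
  have h3 := rr_nonneg m
  rw [le_div_iff₀ (by linarith)]
  have h4 : (m : ℝ) * d m ≤ 1 := by
    unfold d
    rw [mul_one_div, div_le_one (by positivity)]
    have : (0:ℝ) ≤ m := Nat.cast_nonneg m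
    linarith
  have h5 : (m : ℝ) * (1 - rr m) ≤ m * d m := mul_le_mul_of_nonneg_left h1 (Nat.cast_nonneg m)
  linarith

lemma ff_le_one (m : ℕ) : ff m ≤ 1 := by
  refine (ff_le m).trans ?_
  apply Real.exp_le_one_iff.2
  have : (0:ℝ) ≤ m := Nat.cast_nonneg m
  linarith

lemma ff_tendsto : Tendsto ff atTop (𝓝 0) := by
  refine squeeze_zero (fun m => (ff_pos m).le) ff_le ?_
  have : Tendsto (fun m : ℕ => -(m:ℝ)) atTop atBot := tendsto_neg_atTop_atBot.comp tendsto_natCast_atTop_atTop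
  exact Real.tendsto_exp_atBot.comp this

noncomputable def qq (m : ℕ) : ℝ := rr m ^ (8 * m + 7 + 1)

lemma qq_ge (m : ℕ) : 1 / 16 ≤ qq m := by
  unfold qq
  have h1 : rr m ^ (8 * m + 7 + 1) = ((rr m ^ 2) ^ (m + 1)) ^ 4 := by
    rw [← pow_mul, ← pow_mul]
    congr 1
    ring
  rw [h1, rr_sq]
  have h2 : 1 / 2 ≤ (1 - d m) ^ (m + 1) := by
    have := one_add_mul_le_pow (a := - d m) (by have := d_le m; linarith) (m + 1)
    rw [← sub_eq_add_neg] at this
    refine le_trans ?_ this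
    unfold d
    push_cast
    have h3 : ((m:ℝ) + 1) ≠ 0 := by positivity
    have : ((m:ℝ) + 1) * -(1 / (2 * ((m:ℝ) + 1))) = -(1/2) := by
      field_simp
    rw [this]
    norm_num
  calc (1:ℝ) / 16 = (1 / 2) ^ 4 := by norm_num
    _ ≤ ((1 - d m) ^ (m + 1)) ^ 4 := by gcongr

lemma qq_le (m : ℕ) : qq m ≤ 1 := pow_le_one₀ (rr_nonneg m) (rr_lt m).le

/-- test vectors -/
noncomputable def uu (P : ℕ → (H →L[ℂ] H)) (m : ℕ) : H := P (8 * m + 7) (ker (rr m) (rr_nonneg m) (rr_lt m))

include hP in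
lemma uu_norm (m : ℕ) : ‖uu P m‖ ≤ 1 := by
  refine (norm_P_le hP _ _).trans ?_
  rw [norm_ker]

include hP hW in
lemma main_lower (m : ℕ) : 1 / 16 - 5 * ff m ≤ ‖inner ℂ (uu P m) (A P (8 * m + 7) (W (8 * m + 7) (uu P m)))‖ := by
  have h1 := form_lower hP hW (8 * m + 7) (uu P m) (PP hP _ _) (uu_norm hP m) _
    (norm_s_ker hP (8 * m + 7) (rr m) (rr_nonneg m) (rr_lt m))
  refine le_trans ?_ h1
  have h2 : inner ℂ (uu P m) (W (8 * m + 7) (uu P m)) =
    ((((8 * m + 7 : ℕ) + 1) * (1 - rr m ^ 2) * rr m ^ (8 * m + 7) : ℝ) : ℂ) :=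
    inner_ker hP hW (8 * m + 7) (rr m) (rr_nonneg m) (rr_lt m)
  rw [h2, Complex.norm_real, Real.norm_eq_abs]
  have h3 : (((8 * m + 7 : ℕ) : ℝ) + 1) * (1 - rr m ^ 2) = 4 := by
    rw [rr_sq]
    unfold d
    have h3 : ((m:ℝ) + 1) ≠ 0 := by positivity
    push_cast
    field_simp
    ring
  rw [h3]
  have h4 : rr m ^ (8 * m + 7 + 1) ≤ rr m ^ (8 * m + 7) :=
    pow_le_pow_of_le_one (rr_nonneg m) (rr_lt m).le (by omega)
  have h5 : 0 ≤ rr m ^ (8 * m + 7) := pow_nonneg (rr_nonneg m) _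
  rw [abs_of_nonneg (by positivity)]
  have h6 := qq_ge m
  have h7 := qq_le m
  have h8 := ff_pos m
  have h9 := ff_le_one m
  have e1 : rr m ^ (8 * m + 7 + 1) = qq m := rfl
  have e2 : Real.exp (-((1 + rr m) / (1 - rr m))) = ff m := rfl
  rw [e1] at h4
  rw [e1, e2]
  have h10 : 4 * qq m ≤ 4 * rr m ^ (8 * m + 7) := by linarith
  have h11 : ff m * qq m ≤ ff m := by nlinarith
  have h12 : ff m ^ 2 ≤ ff m := by nlinarith
  have h13 : qq m ^ 2 ≤ qq m := by nlinarith
  nlinarith

include hP in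
lemma uu_coord (j : ℕ) : Tendsto (fun m => (uu P m) j) atTop (𝓝 0) := by
  have hd : Tendsto (fun m => Real.sqrt (d m)) atTop (𝓝 0) := by
    have h1 : Tendsto d atTop (𝓝 0) := by
      have := (tendsto_one_div_add_atTop_nhds_zero_nat (𝕜 := ℝ)).const_mul (1/2)
      rw [mul_zero] at this
      refine this.congr fun m => ?_
      unfold d
      have h3 : ((m:ℝ) + 1) ≠ 0 := by positivity
      field_simp
    have := (Real.continuous_sqrt.tendsto 0).comp h1
    rw [Real.sqrt_zero] at this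
    exact this
  apply squeeze_zero_norm _ hd
  intro m
  unfold uu
  rw [hP]
  split_ifs
  · rw [ker_apply]
    unfold kfun
    rw [Complex.norm_real, Real.norm_eq_abs, rr_sq, sub_sub_cancel, abs_of_nonneg (mul_nonneg (Real.sqrt_nonneg _) (pow_nonneg (rr_nonneg m) _))]
    have := pow_le_one₀ (n := j) (rr_nonneg m) (rr_lt m).le
    have h2 := Real.sqrt_nonneg (d m)
    nlinarith
  · rw [norm_zero]
    exact Real.sqrt_nonneg _

include hP hW in
lemma Wuu_coord (j : ℕ) : Tendsto (fun m => (W (8 * m + 7) (uu P m)) j) atTop (𝓝 0) := by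
  have hd : Tendsto (fun m => Real.sqrt (d m)) atTop (𝓝 0) := by
    have h1 : Tendsto d atTop (𝓝 0) := by
      have := (tendsto_one_div_add_atTop_nhds_zero_nat (𝕜 := ℝ)).const_mul (1/2)
      rw [mul_zero] at this
      refine this.congr fun m => ?_
      unfold d
      have h3 : ((m:ℝ) + 1) ≠ 0 := by positivity
      field_simp
    have := (Real.continuous_sqrt.tendsto 0).comp h1
    rw [Real.sqrt_zero] at this
    exact this
  apply squeeze_zero_norm _ hd
  intro m
  unfold uu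
  rw [hW]
  split_ifs
  · rw [hP]
    split_ifs
    · rw [ker_apply]
      unfold kfun
      rw [Complex.norm_real, Real.norm_eq_abs, rr_sq, sub_sub_cancel, abs_of_nonneg (mul_nonneg (Real.sqrt_nonneg _) (pow_nonneg (rr_nonneg m) _))]
      have := pow_le_one₀ (n := 8 * m + 7 - j) (rr_nonneg m) (rr_lt m).le
      have h2 := Real.sqrt_nonneg (d m)
      nlinarith
    · rw [norm_zero]
      exact Real.sqrt_nonneg _
  · rw [norm_zero]
    exact Real.sqrt_nonneg _

include hP hW in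
theorem not_in_J : ¬ ∃ K K' : H →L[ℂ] H,
        IsCompactOperator K ∧ IsCompactOperator K' ∧
        ∃ C : ℕ → (H →L[ℂ] H),
          (∀ n, C n = P n * C n * P n) ∧
          Tendsto (fun n => ‖C n‖) atTop (𝓝 0) ∧
          ∀ n, A P n = P n * K * P n + W n * K' * W n + C n := by
  rintro ⟨K, K', hK, hK', C, -, hC, hA⟩
  have hu := uu_norm hP
  have hWu : ∀ m, ‖W (8 * m + 7) (uu P m)‖ ≤ 1 := fun m => (norm_W_le hP hW _ _).trans (hu m)
  have k1 := compact_null hP hK hWu (Wuu_coord hP hW)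
  have k2 := compact_null hP hK' hu (uu_coord hP)
  have k1' := tendsto_zero_iff_norm_tendsto_zero.1 k1
  have k2' := tendsto_zero_iff_norm_tendsto_zero.1 k2
  have hsub : Tendsto (fun m : ℕ => 8 * m + 7) atTop atTop :=
    tendsto_atTop_mono (fun m => by simp only [id]; omega) tendsto_id
  have k3 := hC.comp hsub
  have hup : ∀ m, 1 / 16 - 5 * ff m ≤ ‖K (W (8 * m + 7) (uu P m))‖ + ‖K' (uu P m)‖ + ‖C (8 * m + 7)‖ := by
    intro m
    refine (main_lower hP hW m).trans ?_
    set n := 8 * m + 7 with hn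
    set u := uu P m with hu'
    have hPu : P n u = u := PP hP _ _
    have e1 : A P n (W n u) = P n (K (W n u)) + W n (K' u) + C n (W n u) := by
      rw [hA n]
      change P n (K (P n (W n u))) + W n (K' (W n (W n u))) + C n (W n u) = _
      rw [PW hP hW, WW hP hW, hPu]
    rw [e1]
    refine (norm_inner_le_norm _ _).trans ?_
    have e2 : ‖P n (K (W n u)) + W n (K' u) + C n (W n u)‖ ≤ ‖K (W n u)‖ + ‖K' u‖ + ‖C n‖ := by
      have a1 := norm_add₃_le (a := P n (K (W n u))) (b := W n (K' u)) (c := C n (W n u))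
      have a2 := norm_P_le hP n (K (W n u))
      have a3 := norm_W_le hP hW n (K' u)
      have a4 : ‖C n (W n u)‖ ≤ ‖C n‖ := by
        refine ((C n).le_opNorm _).trans ?_
        have := hWu m
        have b := norm_nonneg (C n)
        nlinarith
      linarith
    have hu1 : ‖u‖ ≤ 1 := hu m
    calc _ ≤ 1 * ‖P n (K (W n u)) + W n (K' u) + C n (W n u)‖ := by gcongr
      _ ≤ _ := by rw [one_mul]; exact e2
  have hlim : Tendsto (fun m => ‖K (W (8 * m + 7) (uu P m))‖ + ‖K' (uu P m)‖ + ‖C (8 * m + 7)‖) atTop (𝓝 0) := by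
    simpa using (k1'.add k2').add k3
  have hlim2 : Tendsto (fun m => 1 / 16 - 5 * ff m) atTop (𝓝 (1 / 16)) := by
    have := (tendsto_const_nhds (x := (1/16 : ℝ))).sub (ff_tendsto.const_mul 5)
    simpa using this
  have := le_of_tendsto_of_tendsto' hlim2 hlim hup
  norm_num at this

end PW

end Pool.Agent.Q199.FS
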