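import Pool.Agent.Q199.FS.Ops

set_option autoImplicit false

open Filter Topology ComplexConjugate
open scoped ENNReal

namespace Pool.Agent.Q199.FS

/-! ### existence of the projections and flips -/

noncomputable def Pc (n : ℕ) : H →L[ℂ] H :=
  ∑ j ∈ Finset.range (n + 1), (innerSL ℂ (e j)).smulRight (e j)

noncomputable def Wc (n : ℕ) : H →L[ℂ] H :=
  ∑ j ∈ Finset.range (n + 1), (innerSL ℂ (e (n - j))).smulRight (e j)

lemma sum_apply_H (s : Finset ℕ) (f : ℕ → H) (j : ℕ) : (∑ i ∈ s, f i : H) j = ∑ i ∈ s, (f i) j := by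
  rw [lp.coeFn_sum, Finset.sum_apply]

lemma Pc_apply (n : ℕ) (x : H) (j : ℕ) : (Pc n x) j = if j ≤ n then x j else 0 := by
  unfold Pc
  rw [_root_.sum_apply, sum_apply_H]
  have : ∀ i ∈ Finset.range (n + 1), ((((innerSL ℂ (e i)).smulRight (e i)) x : H)) j = if j = i then x i else 0 := by
    intro i _
    rw [ContinuousLinearMap.smulRight_apply, lp.coeFn_smul, Pi.smul_apply, e_apply]
    rw [innerSL_apply_apply, inner_e]
    split_ifs <;> simp
  rw [Finset.sum_congr rfl this, Finset.sum_ite_eq]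
  by_cases h : j ≤ n
  · rw [if_pos (Finset.mem_range.2 (by omega)), if_pos h]
  · rw [if_neg (fun h' => h (by have := Finset.mem_range.1 h'; omega)), if_neg h]

lemma Wc_apply (n : ℕ) (x : H) (j : ℕ) : (Wc n x) j = if j ≤ n then x (n - j) else 0 := by
  unfold Wc
  rw [_root_.sum_apply, sum_apply_H]
  have : ∀ i ∈ Finset.range (n + 1), ((((innerSL ℂ (e (n - i))).smulRight (e i)) x : H)) j = if j = i then x (n - i) else 0 := by
    intro i _
    rw [ContinuousLinearMap.smulRight_apply, lp.coeFn_smul, Pi.smul_apply, e_apply]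
    rw [innerSL_apply_apply, inner_e]
    split_ifs <;> simp
  rw [Finset.sum_congr rfl this, Finset.sum_ite_eq]
  by_cases h : j ≤ n
  · rw [if_pos (Finset.mem_range.2 (by omega)), if_pos h]
  · rw [if_neg (fun h' => h (by have := Finset.mem_range.1 h'; omega)), if_neg h]

section PW

variable {P W : ℕ → (H →L[ℂ] H)}

lemma PP (hP : ∀ (n : ℕ) (x : H) (j : ℕ), (P n x) j = if j ≤ n then x j else 0) (n : ℕ) (x : H) :
    P n (P n x) = P n x := by
  apply H_ext; intro j
  rw [hP, hP]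
  split_ifs <;> rfl

lemma WW (hP : ∀ (n : ℕ) (x : H) (j : ℕ), (P n x) j = if j ≤ n then x j else 0)
    (hW : ∀ (n : ℕ) (x : H) (j : ℕ), (W n x) j = if j ≤ n then x (n - j) else 0) (n : ℕ) (x : H) :
    W n (W n x) = P n x := by
  apply H_ext; intro j
  rw [hW, hW, hP]
  by_cases h : j ≤ n
  · rw [if_pos h, if_pos h, if_pos (by omega), show n - (n - j) = j by omega]
  · rw [if_neg h, if_neg h]

lemma PW (hP : ∀ (n : ℕ) (x : H) (j : ℕ), (P n x) j = if j ≤ n then x j else 0)
    (hW : ∀ (n : ℕ) (x : H) (j : ℕ), (W n x) j = if j ≤ n then x (n - j) else 0) (n : ℕ) (x : H) :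
    P n (W n x) = W n x := by
  apply H_ext; intro j
  rw [hP, hW]
  by_cases h : j ≤ n
  · rw [if_pos h, if_pos h]
  · rw [if_neg h, if_neg h]

lemma WP (hP : ∀ (n : ℕ) (x : H) (j : ℕ), (P n x) j = if j ≤ n then x j else 0)
    (hW : ∀ (n : ℕ) (x : H) (j : ℕ), (W n x) j = if j ≤ n then x (n - j) else 0) (n : ℕ) (x : H) :
    W n (P n x) = W n x := by
  apply H_ext; intro j
  rw [hW, hP, hW]
  by_cases h : j ≤ n
  · rw [if_pos h, if_pos h, if_pos (by omega)]
  · rw [if_neg h, if_neg h]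

lemma inner_P (hP : ∀ (n : ℕ) (x : H) (j : ℕ), (P n x) j = if j ≤ n then x j else 0) (n : ℕ) (x y : H) :
    inner ℂ (P n x) y = inner ℂ x (P n y) := by
  rw [lp.inner_eq_tsum, lp.inner_eq_tsum]
  congr 1
  funext j
  rw [hP, hP]
  split_ifs <;> simp

lemma inner_W (hW : ∀ (n : ℕ) (x : H) (j : ℕ), (W n x) j = if j ≤ n then x (n - j) else 0) (n : ℕ) (x y : H) :
    inner ℂ (W n x) y = inner ℂ x (W n y) := by
  rw [lp.inner_eq_tsum, lp.inner_eq_tsum]
  rw [tsum_eq_sum (s := Finset.range (n + 1)), tsum_eq_sum (s := Finset.range (n + 1))]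
  · rw [← Finset.sum_range_reflect]
    apply Finset.sum_congr rfl
    intro j hj
    have hj' := Finset.mem_range.1 hj
    rw [hW, hW, if_pos (by omega), if_pos (by omega), show n - (n + 1 - 1 - j) = j by omega,
      show n + 1 - 1 - j = n - j by omega]
  · intro b hb
    rw [hW, if_neg (fun h => hb (Finset.mem_range.2 (by omega)))]
    simp
  · intro b hb
    rw [hW, if_neg (fun h => hb (Finset.mem_range.2 (by omega)))]
    simp

lemma norm_P_le (hP : ∀ (n : ℕ) (x : H) (j : ℕ), (P n x) j = if j ≤ n then x j else 0) (n : ℕ) (x : H) :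
    ‖P n x‖ ≤ ‖x‖ := by
  have h1 : ‖P n x‖ ^ 2 ≤ ‖x‖ * ‖P n x‖ := by
    have h : inner ℂ (P n x) (P n x) = inner ℂ x (P n x) := by rw [inner_P hP, PP hP]
    have h2 : ‖inner ℂ (P n x) (P n x)‖ = ‖P n x‖ ^ 2 := by
      rw [inner_self_eq_norm_sq_to_K]
      simp
    rw [← h2, h]
    exact norm_inner_le_norm _ _
  by_contra hlt
  push Not at hlt
  have : 0 ≤ ‖x‖ := norm_nonneg x
  nlinarith

lemma norm_W_le (hP : ∀ (n : ℕ) (x : H) (j : ℕ), (P n x) j = if j ≤ n then x j else 0)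
    (hW : ∀ (n : ℕ) (x : H) (j : ℕ), (W n x) j = if j ≤ n then x (n - j) else 0) (n : ℕ) (x : H) :
    ‖W n x‖ ≤ ‖x‖ := by
  have h1 : ‖W n x‖ ^ 2 ≤ ‖x‖ ^ 2 := by
    have h : inner ℂ (W n x) (W n x) = inner ℂ x (P n x) := by rw [inner_W hW, WW hP hW]
    have h2 : ‖inner ℂ (W n x) (W n x)‖ = ‖W n x‖ ^ 2 := by
      rw [inner_self_eq_norm_sq_to_K]
      simp
    rw [← h2, h]
    refine (norm_inner_le_norm _ _).trans ?_
    have := norm_P_le hP n x
    nlinarith [norm_nonneg x]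
  exact (sq_le_sq₀ (norm_nonneg _) (norm_nonneg _)).1 h1

lemma P_tendsto (hP : ∀ (n : ℕ) (x : H) (j : ℕ), (P n x) j = if j ≤ n then x j else 0) (x : H) :
    Tendsto (fun n => P n x) atTop (𝓝 x) := by
  have h := (lp.hasSum_single (E := fun _ : ℕ => ℂ) (p := 2) (by simp) x).tendsto_sum_nat
  have h2 := h.comp (tendsto_add_atTop_nat 1)
  refine h2.congr fun n => ?_
  simp only [Function.comp]
  apply H_ext
  intro j
  rw [sum_apply_H, hP]
  have : ∀ i ∈ Finset.range (n + 1), (lp.single (E := fun _ : ℕ => ℂ) 2 i (x i)) j = if j = i then x i else 0 := by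
    intro i _
    rw [lp.single_apply]
    by_cases h : j = i
    · subst h; simp
    · simp [h]
  rw [Finset.sum_congr rfl this, Finset.sum_ite_eq]
  by_cases h : j ≤ n
  · rw [if_pos (Finset.mem_range.2 (by omega)), if_pos h]
  · rw [if_neg (fun h' => h (by have := Finset.mem_range.1 h'; omega)), if_neg h]

/-- weakly null bounded sequences -/
lemma weak_null (hP : ∀ (n : ℕ) (x : H) (j : ℕ), (P n x) j = if j ≤ n then x j else 0)
    {y : ℕ → H} (hb : ∀ m, ‖y m‖ ≤ 1) (hy : ∀ j, Tendsto (fun m => (y m) j) atTop (𝓝 0)) (x : H) :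
    Tendsto (fun m => inner ℂ x (y m)) atTop (𝓝 0) := by
  rw [Metric.tendsto_atTop]
  intro ε hε
  obtain ⟨n, hn⟩ : ∃ n, ‖P n x - x‖ < ε / 2 := by
    have h := P_tendsto hP x
    rw [Metric.tendsto_atTop] at h
    obtain ⟨N, hN⟩ := h (ε / 2) (by positivity)
    exact ⟨N, by simpa [dist_eq_norm] using hN N le_rfl⟩
  have h1 : Tendsto (fun m => inner ℂ (P n x) (y m)) atTop (𝓝 0) := by
    have e1 : ∀ m, inner ℂ (P n x) (y m) = ∑ j ∈ Finset.range (n + 1), inner ℂ (x j) ((y m) j) := by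
      intro m
      rw [lp.inner_eq_tsum, tsum_eq_sum (s := Finset.range (n + 1))]
      · apply Finset.sum_congr rfl
        intro j hj
        rw [hP, if_pos (by have := Finset.mem_range.1 hj; omega)]
      · intro b hb
        rw [hP, if_neg (fun h => hb (Finset.mem_range.2 (by omega)))]
        simp
    simp_rw [e1]
    have : (0:ℂ) = ∑ j ∈ Finset.range (n + 1), inner ℂ (x j) (0:ℂ) := by simp
    rw [this]
    apply tendsto_finsetSum
    intro j _
    exact Tendsto.inner tendsto_const_nhds (hy j)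
  rw [Metric.tendsto_atTop] at h1
  obtain ⟨M, hM⟩ := h1 (ε / 2) (by positivity)
  refine ⟨M, fun m hm => ?_⟩
  have h2 := hM m hm
  rw [dist_zero_right] at h2 ⊢
  have h3 : inner ℂ x (y m) = inner ℂ (P n x) (y m) - inner ℂ (P n x - x) (y m) := by
    rw [inner_sub_left]; ring
  rw [h3]
  have h4 : ‖inner ℂ (P n x - x) (y m)‖ ≤ ‖P n x - x‖ := by
    refine (norm_inner_le_norm _ _).trans ?_
    have := hb m
    nlinarith [norm_nonneg (P n x - x)]
  calc _ ≤ ‖inner ℂ (P n x) (y m)‖ + ‖inner ℂ (P n x - x) (y m)‖ := norm_sub_le _ _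
    _ < ε := by linarith

lemma compact_null (hP : ∀ (n : ℕ) (x : H) (j : ℕ), (P n x) j = if j ≤ n then x j else 0)
    {K : H →L[ℂ] H} (hK : IsCompactOperator K)
    {y : ℕ → H} (hb : ∀ m, ‖y m‖ ≤ 1) (hy : ∀ j, Tendsto (fun m => (y m) j) atTop (𝓝 0)) :
    Tendsto (fun m => K (y m)) atTop (𝓝 0) := by
  apply tendsto_of_subseq_tendsto
  intro ns hns
  have hc : IsCompact (closure (K '' Metric.closedBall 0 1)) := hK.isCompact_closure_image_closedBall 1
  obtain ⟨z, -, φ, hφ, hz⟩ := hc.tendsto_subseq (x := fun k => K (y (ns k))) (by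
    intro k
    apply subset_closure
    exact ⟨y (ns k), by simpa using hb (ns k), rfl⟩)
  refine ⟨φ, ?_⟩
  have hz0 : z = 0 := by
    have h1 : Tendsto (fun k => inner ℂ z (K (y (ns (φ k))))) atTop (𝓝 (inner ℂ z z)) :=
      Tendsto.inner tendsto_const_nhds hz
    have h2 : Tendsto (fun k => inner ℂ z (K (y (ns (φ k))))) atTop (𝓝 0) := by
      have h3 : ∀ k, inner ℂ z (K (y (ns (φ k)))) = inner ℂ (ContinuousLinearMap.adjoint K z) (y (ns (φ k))) := by
        intro k
        rw [ContinuousLinearMap.adjoint_inner_left]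
      simp_rw [h3]
      exact (weak_null hP hb hy _).comp (hns.comp hφ.tendsto_atTop)
    exact inner_self_eq_zero.1 (tendsto_nhds_unique h1 h2)
  rw [hz0] at hz
  exact hz

end PW

end Pool.Agent.Q199.FS
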