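import Pool.Agent.Q199.FS.Symb

set_option autoImplicit false

open Filter Topology ComplexConjugate
open scoped Nat ENNReal

namespace Pool.Agent.Q199.FS

abbrev H : Type := lp (fun _ : ℕ => ℂ) 2

lemma H_ext {x y : H} (h : ∀ j, x j = y j) : x = y := lp.ext (funext h)

/-- basis vector -/
noncomputable def e (k : ℕ) : H := lp.single 2 k (1 : ℂ)

lemma e_apply (k j : ℕ) : (e k) j = if j = k then 1 else 0 := by
  unfold e
  rw [lp.single_apply]
  by_cases h : j = k
  · subst h; simp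
  · simp [h]

lemma inner_e (k : ℕ) (x : H) : inner ℂ (e k) x = x k := by
  unfold e
  rw [lp.inner_single_left]
  simp

lemma inner_e' (k : ℕ) (x : H) : inner ℂ x (e k) = conj (x k) := by
  rw [← inner_conj_symm, inner_e]

lemma memℓ2 {f : ℕ → ℂ} (h : Summable fun j => ‖f j‖ ^ 2) : Memℓp f 2 := by
  apply memℓp_gen
  simpa using h

lemma summable_c2 : Summable (fun j => c j * c j) := by
  have h := (hasSum_shift 0).summable
  simpa using h

/-- shifted column -/
noncomputable def vfun (k j : ℕ) : ℂ := if k ≤ j then ((c (j - k) : ℝ) : ℂ) else 0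

lemma vfun_summable (k : ℕ) : Summable (fun j => ‖vfun k j‖ ^ 2) := by
  rw [← summable_nat_add_iff k]
  refine summable_c2.congr fun j => ?_
  unfold vfun
  rw [if_pos (by omega), Nat.add_sub_cancel, Complex.norm_real, Real.norm_eq_abs, sq_abs]
  ring

noncomputable def v (k : ℕ) : H := ⟨vfun k, memℓ2 (vfun_summable k)⟩

lemma v_apply (k j : ℕ) : (v k) j = if k ≤ j then ((c (j - k) : ℝ) : ℂ) else 0 := rfl

lemma inner_v_le {i k : ℕ} (h : k ≤ i) : inner ℂ (v i) (v k) = if i = k then (1:ℂ) else 0 := by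
  have h1 := lp.hasSum_inner (𝕜 := ℂ) (v i) (v k)
  have hinj : Function.Injective (fun l : ℕ => l + i) := add_left_injective i
  have h2 := (hinj.hasSum_iff (f := fun j : ℕ => inner ℂ ((v i) j) ((v k) j)) (by
    intro x hx
    have : ¬ i ≤ x := by
      intro h0
      exact hx ⟨x - i, by simp [h0]⟩
    rw [v_apply, if_neg this]
    simp)).2 h1
  have h3 : (fun j : ℕ => inner ℂ ((v i) j) ((v k) j)) ∘ (fun l : ℕ => l + i) =
      fun l : ℕ => (((c (l + (i - k)) * c l : ℝ)) : ℂ) := by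
    funext l
    simp only [Function.comp]
    rw [v_apply, v_apply, if_pos (by omega), if_pos (by omega), Nat.add_sub_cancel,
      show l + i - k = l + (i - k) by omega]
    simp only [RCLike.inner_apply, Complex.conj_ofReal]
    push_cast
    ring
  rw [h3] at h2
  have h4 := Complex.hasSum_ofReal.2 (hasSum_shift (i - k))
  rw [h2.unique h4]
  by_cases h5 : i = k
  · rw [if_pos h5, if_pos (by omega)]; simp
  · rw [if_neg h5, if_neg (by omega)]; simp

lemma v_ortho : Orthonormal ℂ v := by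
  rw [orthonormal_iff_ite]
  intro i k
  rcases le_total k i with h | h
  · exact inner_v_le h
  · rw [← inner_conj_symm, inner_v_le h]
    by_cases h5 : k = i
    · rw [if_pos h5, if_pos h5.symm]; simp
    · rw [if_neg h5, if_neg (Ne.symm h5)]; simp

noncomputable def Tiso : H →ₗᵢ[ℂ] H := v_ortho.orthogonalFamily.linearIsometry

/-- the isometry with matrix `c(j-k)` -/
noncomputable def T : H →L[ℂ] H := Tiso.toContinuousLinearMap

lemma T_e (k : ℕ) : T (e k) = v k := by
  have := v_ortho.orthogonalFamily.linearIsometry_apply_single (i := k) (1:ℂ)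
  rw [show T (e k) = v_ortho.orthogonalFamily.linearIsometry (lp.single 2 k (1:ℂ)) from rfl, this]
  simp

lemma norm_T (x : H) : ‖T x‖ = ‖x‖ := Tiso.norm_map x

noncomputable def S : H →L[ℂ] H := ContinuousLinearMap.adjoint T

lemma inner_S (x y : H) : inner ℂ x (S y) = inner ℂ (T x) y := by
  unfold S
  exact ContinuousLinearMap.adjoint_inner_right T x y

lemma inner_S' (x y : H) : inner ℂ (S x) y = inner ℂ x (T y) := by
  unfold S
  exact ContinuousLinearMap.adjoint_inner_left T y x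

lemma S_apply (x : H) (k : ℕ) : (S x) k = inner ℂ (v k) x := by
  rw [← inner_e, inner_S, T_e]

lemma S_e (k j : ℕ) : (S (e k)) j = if j ≤ k then ((c (k - j) : ℝ) : ℂ) else 0 := by
  rw [S_apply, inner_e', v_apply]
  split_ifs <;> simp

lemma T_apply (x : H) (k : ℕ) : (T x) k = inner ℂ (S (e k)) x := by
  rw [inner_S', inner_e]

lemma S_T (x : H) : S (T x) = x := by
  have h : inner ℂ (S (T x) - x) (S (T x) - x) = 0 := by
    set z := S (T x) - x with hz
    rw [show inner ℂ z z = inner ℂ z (S (T x)) - inner ℂ z x by rw [← inner_sub_right], inner_S]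
    rw [show inner ℂ (T z) (T x) = inner ℂ z x from Tiso.inner_map_map z x]
    ring
  have := inner_self_eq_zero.1 h
  exact sub_eq_zero.1 this

lemma norm_S (x : H) : ‖S x‖ ≤ ‖x‖ := by
  have h1 : ‖S x‖ ^ 2 ≤ ‖x‖ * ‖S x‖ := by
    have h : inner ℂ (S x) (S x) = inner ℂ x (T (S x)) := inner_S' _ _
    have h2 : ‖inner ℂ (S x) (S x)‖ = ‖S x‖ ^ 2 := by
      rw [inner_self_eq_norm_sq_to_K]
      simp
    rw [← h2, h]
    refine (norm_inner_le_norm _ _).trans ?_
    rw [norm_T]
  by_contra hlt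
  push Not at hlt
  have : 0 ≤ ‖x‖ := norm_nonneg x
  nlinarith

/-! ### the Szego kernel -/

noncomputable def kfun (r : ℝ) (j : ℕ) : ℂ := ((Real.sqrt (1 - r ^ 2) * r ^ j : ℝ) : ℂ)

lemma kfun_sq {r : ℝ} (h0 : 0 ≤ r) (h1 : r < 1) (j : ℕ) : ‖kfun r j‖ ^ 2 = (1 - r ^ 2) * (r ^ 2) ^ j := by
  unfold kfun
  rw [Complex.norm_real, Real.norm_eq_abs, sq_abs, mul_pow, Real.sq_sqrt (by nlinarith), ← pow_mul, ← pow_mul, mul_comm j 2]

lemma kfun_hasSum {r : ℝ} (h0 : 0 ≤ r) (h1 : r < 1) : HasSum (fun j => ‖kfun r j‖ ^ 2) 1 := by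
  have h2 : r ^ 2 < 1 := by nlinarith
  have h := (hasSum_geometric_of_lt_one (sq_nonneg r) h2).mul_left (1 - r ^ 2)
  rw [mul_inv_cancel₀ (by linarith)] at h
  simp_rw [kfun_sq h0 h1]
  exact h

noncomputable def ker (r : ℝ) (h0 : 0 ≤ r) (h1 : r < 1) : H := ⟨kfun r, memℓ2 (kfun_hasSum h0 h1).summable⟩

lemma ker_apply (r : ℝ) (h0 : 0 ≤ r) (h1 : r < 1) (j : ℕ) : (ker r h0 h1) j = kfun r j := rfl

lemma norm_sq_H (x : H) : HasSum (fun j => ‖x j‖ ^ 2) (‖x‖ ^ 2) := by
  have h := lp.hasSum_norm (p := 2) (by simp) x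
  simpa using h

lemma norm_ker (r : ℝ) (h0 : 0 ≤ r) (h1 : r < 1) : ‖ker r h0 h1‖ = 1 := by
  have h := (norm_sq_H (ker r h0 h1)).unique (kfun_hasSum h0 h1)
  have h2 := norm_nonneg (ker r h0 h1)
  nlinarith

lemma S_ker (r : ℝ) (h0 : 0 ≤ r) (h1 : r < 1) :
    S (ker r h0 h1) = ((Real.exp (-((1 + r) / (1 - r))) : ℝ) : ℂ) • ker r h0 h1 := by
  apply H_ext
  intro i
  rw [S_apply]
  have h1' := lp.hasSum_inner (𝕜 := ℂ) (v i) (ker r h0 h1)
  have hinj : Function.Injective (fun l : ℕ => l + i) := add_left_injective i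
  have h2 := (hinj.hasSum_iff (f := fun j : ℕ => inner ℂ ((v i) j) ((ker r h0 h1) j)) (by
    intro x hx
    have : ¬ i ≤ x := by
      intro h0
      exact hx ⟨x - i, by simp [h0]⟩
    rw [v_apply, if_neg this]
    simp)).2 h1'
  have h3 : (fun j : ℕ => inner ℂ ((v i) j) ((ker r h0 h1) j)) ∘ (fun l : ℕ => l + i) =
      fun l : ℕ => (((Real.sqrt (1 - r ^ 2) * r ^ i) * (c l * r ^ l) : ℝ) : ℂ) := by
    funext l
    simp only [Function.comp]
    rw [v_apply, if_pos (by omega), Nat.add_sub_cancel, ker_apply]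
    unfold kfun
    simp only [RCLike.inner_apply, Complex.conj_ofReal]
    rw [pow_add]
    push_cast
    ring
  rw [h3] at h2
  have h4 := Complex.hasSum_ofReal.2 ((hasSum_c h0 h1).mul_left (Real.sqrt (1 - r ^ 2) * r ^ i))
  rw [h2.unique h4, lp.coeFn_smul, Pi.smul_apply, ker_apply]
  unfold kfun
  push_cast
  simp only [smul_eq_mul]
  ring

end Pool.Agent.Q199.FS
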