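import Mathlib

set_option autoImplicit false

open MeasureTheory Filter Topology ComplexConjugate
open scoped Nat

namespace Pool.Agent.Q199.FS

/-- the singular inner function -/
noncomputable def F (z : ℂ) : ℂ := Complex.exp (-((1 + z) / (1 - z)))

lemma re_quot (z : ℂ) : ((1 + z) / (1 - z)).re = (1 - Complex.normSq z) / Complex.normSq (1 - z) := by
  rw [Complex.div_re]
  simp only [Complex.add_re, Complex.sub_re, Complex.one_re, Complex.add_im, Complex.sub_im,
    Complex.one_im]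
  rw [← add_div]
  congr 1
  rw [Complex.normSq_apply]
  ring

lemma norm_F (z : ℂ) : ‖F z‖ = Real.exp (-((1 - Complex.normSq z) / Complex.normSq (1 - z))) := by
  unfold F
  rw [Complex.norm_exp, Complex.neg_re, re_quot]

lemma norm_F_le {z : ℂ} (hz : ‖z‖ ≤ 1) : ‖F z‖ ≤ 1 := by
  rw [norm_F]
  apply Real.exp_le_one_iff.2
  rw [neg_nonpos]
  apply div_nonneg _ (Complex.normSq_nonneg _)
  rw [Complex.normSq_eq_norm_sq]
  nlinarith [norm_nonneg z]

lemma norm_F_eq {z : ℂ} (hz : ‖z‖ = 1) : ‖F z‖ = 1 := by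
  rw [norm_F, Complex.normSq_eq_norm_sq z, hz]
  simp

lemma F_conj (z : ℂ) : F (conj z) = conj (F z) := by
  unfold F
  rw [← Complex.exp_conj]
  simp

lemma measurable_F : Measurable F := by
  unfold F
  fun_prop

lemma F_differentiableOn : DifferentiableOn ℂ F (Metric.ball (0:ℂ) ((1 : NNReal) : ℝ)) := by
  intro z hz
  have hz1 : (1 - z) ≠ 0 := by
    intro h
    have : z = 1 := (sub_eq_zero.1 h).symm
    rw [this] at hz
    simp at hz
  unfold F
  apply DifferentiableAt.differentiableWithinAt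
  apply DifferentiableAt.cexp
  apply DifferentiableAt.neg
  apply DifferentiableAt.div _ _ hz1 <;> fun_prop

lemma continuousAt_F {z : ℂ} (hz : z ≠ 1) : ContinuousAt F z := by
  unfold F
  have : 1 - z ≠ 0 := sub_ne_zero.2 (Ne.symm hz)
  fun_prop (disch := assumption)

/-- Taylor coefficients -/
noncomputable def p (n : ℕ) : ℂ := ((n ! : ℕ) : ℂ)⁻¹ * iteratedDeriv n F 0

lemma hasSum_F {z : ℂ} (hz : ‖z‖ < 1) : HasSum (fun n => p n * z ^ n) (F z) := by
  have h := Complex.hasSum_taylorSeries_on_ball F_differentiableOn (z := z) (by simpa using hz)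
  have e : (fun n => p n * z ^ n) = fun n : ℕ => ((n ! : ℕ) : ℂ)⁻¹ • (z - 0) ^ n • iteratedDeriv n F 0 := by
    funext n
    simp only [p, sub_zero, smul_eq_mul]
    ring
  rw [e]
  exact h

instance : Fact ((0:ℝ) < 1) := ⟨one_pos⟩

abbrev Ci := AddCircle (1 : ℝ)

lemma norm_four (n : ℤ) (x : Ci) : ‖(fourier n x : ℂ)‖ = 1 := by
  rw [fourier_apply, Circle.norm_coe]

lemma four_pow (n : ℕ) (x : Ci) : (fourier 1 x : ℂ) ^ n = fourier (n : ℤ) x := by
  induction n with
  | zero => simp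
  | succ n ih =>
      rw [pow_succ, ih, ← fourier_add]
      norm_num

lemma int_four (m : ℤ) : ∫ x : Ci, (fourier m x : ℂ) ∂AddCircle.haarAddCircle = if m = 0 then 1 else 0 := by
  have h := (orthonormal_iff_ite.1 (@orthonormal_fourier (1:ℝ) _)) 0 m
  rw [show fourierLp (T := (1:ℝ)) 2 0 = ContinuousMap.toLp (E := ℂ) 2 AddCircle.haarAddCircle ℂ (fourier 0) from rfl,
    show fourierLp (T := (1:ℝ)) 2 m = ContinuousMap.toLp (E := ℂ) 2 AddCircle.haarAddCircle ℂ (fourier m) from rfl,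
    ContinuousMap.inner_toLp] at h
  simp only [fourier_zero, map_one, mul_one] at h
  rw [h]
  by_cases hm : m = 0
  · simp [hm]
  · rw [if_neg hm, if_neg (Ne.symm hm)]

/-- the symbol, at radius ρ -/
noncomputable def aρ (ρ : ℝ) (x : Ci) : ℂ := F ((ρ : ℂ) * fourier 1 x)

lemma measurable_aρ (ρ : ℝ) : Measurable (aρ ρ) := by
  unfold aρ
  apply measurable_F.comp
  have : Measurable (fun x : Ci => (fourier 1 x : ℂ)) := (map_continuous (fourier 1)).measurable
  fun_prop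

lemma norm_aρ_le {ρ : ℝ} (h0 : 0 ≤ ρ) (h1 : ρ ≤ 1) (x : Ci) : ‖aρ ρ x‖ ≤ 1 := by
  apply norm_F_le
  rw [norm_mul, norm_four, mul_one, Complex.norm_real, Real.norm_eq_abs, abs_of_nonneg h0]
  exact h1

lemma hasSum_aρ {ρ : ℝ} (h0 : 0 ≤ ρ) (h1 : ρ < 1) (x : Ci) :
    HasSum (fun n : ℕ => p n * (ρ:ℂ) ^ n * fourier (n:ℤ) x) (aρ ρ x) := by
  have h := hasSum_F (z := (ρ : ℂ) * fourier 1 x) (by
    rw [norm_mul, norm_four, mul_one, Complex.norm_real, Real.norm_eq_abs, abs_of_nonneg h0]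
    exact h1)
  have e : (fun n : ℕ => p n * (ρ:ℂ) ^ n * fourier (n:ℤ) x) = fun n => p n * ((ρ : ℂ) * fourier 1 x) ^ n := by
    funext n
    rw [mul_pow, four_pow]
    ring
  rw [e]
  exact h

lemma summable_p {ρ : ℝ} (h0 : 0 ≤ ρ) (h1 : ρ < 1) : Summable (fun n : ℕ => ‖p n * (ρ:ℂ) ^ n‖) := by
  have h := hasSum_F (z := (ρ : ℂ)) (by
    rw [Complex.norm_real, Real.norm_eq_abs, abs_of_nonneg h0]
    exact h1)
  exact h.summable.norm

lemma coeff_aρ {ρ : ℝ} (h0 : 0 ≤ ρ) (h1 : ρ < 1) (m : ℤ) :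
    fourierCoeff (aρ ρ) m = if 0 ≤ m then p m.toNat * (ρ:ℂ) ^ m.toNat else 0 := by
  unfold fourierCoeff
  have hint : ∀ i : ℕ, Integrable (fun t : Ci => (fourier (-m) t : ℂ) * (p i * (ρ:ℂ) ^ i * fourier (i:ℤ) t))
      AddCircle.haarAddCircle := by
    intro i
    apply Continuous.integrable_of_hasCompactSupport
    · fun_prop
    · exact HasCompactSupport.of_compactSpace _
  have hnorm : ∀ i : ℕ, ∀ t : Ci, ‖(fourier (-m) t : ℂ) * (p i * (ρ:ℂ) ^ i * fourier (i:ℤ) t)‖ =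
      ‖p i * (ρ:ℂ) ^ i‖ := by
    intro i t
    rw [norm_mul, norm_mul (p i * (ρ:ℂ) ^ i), norm_four, norm_four]
    ring
  have hs := hasSum_integral_of_summable_integral_norm (μ := AddCircle.haarAddCircle) hint (by
    refine (summable_congr fun i => ?_).2 (summable_p h0 h1)
    rw [integral_congr_ae (Eventually.of_forall (hnorm i))]
    simp)
  have h2 : ∀ t : Ci, ∑' i : ℕ, (fourier (-m) t : ℂ) * (p i * (ρ:ℂ) ^ i * fourier (i:ℤ) t) =
      fourier (-m) t • aρ ρ t := by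
    intro t
    exact ((hasSum_aρ h0 h1 t).mul_left _).tsum_eq
  simp_rw [h2] at hs
  have h3 : ∀ i : ℕ, ∫ t : Ci, (fourier (-m) t : ℂ) * (p i * (ρ:ℂ) ^ i * fourier (i:ℤ) t) ∂AddCircle.haarAddCircle
      = if (i:ℤ) = m then p i * (ρ:ℂ) ^ i else 0 := by
    intro i
    have : ∀ t : Ci, (fourier (-m) t : ℂ) * (p i * (ρ:ℂ) ^ i * fourier (i:ℤ) t) =
        (p i * (ρ:ℂ) ^ i) * fourier ((i:ℤ) - m) t := by
      intro t
      rw [sub_eq_neg_add, fourier_add]
      ring
    simp_rw [this]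
    rw [integral_const_mul, int_four]
    by_cases h : (i:ℤ) = m
    · rw [if_pos (by omega), if_pos h, mul_one]
    · rw [if_neg (by omega), if_neg h, mul_zero]
  simp_rw [h3] at hs
  refine hs.unique ?_
  by_cases hm : 0 ≤ m
  · rw [if_pos hm]
    have := hasSum_single (f := fun i : ℕ => if (i:ℤ) = m then p i * (ρ:ℂ) ^ i else 0) m.toNat (by
      intro i hi
      rw [if_neg (by omega)])
    rwa [if_pos (by omega)] at this
  · rw [if_neg hm]
    have : (fun i : ℕ => if (i:ℤ) = m then p i * (ρ:ℂ) ^ i else 0) = fun _ => 0 := by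
      funext i
      rw [if_neg (by omega)]
    rw [this]
    exact hasSum_zero

end Pool.Agent.Q199.FS
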