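import Pool.Agent.Q199.FS.Sing

set_option autoImplicit false

open MeasureTheory Filter Topology ComplexConjugate
open scoped Nat ENNReal

namespace Pool.Agent.Q199.FS

lemma haar_singleton (x : Ci) : AddCircle.haarAddCircle ({x} : Set Ci) = 0 := by
  have h : (volume : Measure Ci) {x} = 0 := by
    have hle : ∀ ε : ℝ, 0 < ε → (volume : Measure Ci) {x} ≤ ENNReal.ofReal (2 * ε) := by
      intro ε hε
      calc (volume : Measure Ci) {x} ≤ volume (Metric.closedBall x ε) :=
            measure_mono (by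
              intro y hy
              rw [Set.mem_singleton_iff] at hy
              rw [hy]
              exact Metric.mem_closedBall_self hε.le)
        _ = ENNReal.ofReal (min 1 (2 * ε)) := AddCircle.volume_closedBall (T := (1:ℝ)) ε
        _ ≤ ENNReal.ofReal (2 * ε) := ENNReal.ofReal_le_ofReal (min_le_right _ _)
    have hfin : (volume : Measure Ci) {x} ≠ ⊤ := by
      intro h
      have := hle 1 one_pos
      rw [h] at this
      exact absurd this (by simp)
    by_contra hne
    have hpos : 0 < ((volume : Measure Ci) {x}).toReal := ENNReal.toReal_pos hne hfin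
    have := hle (((volume : Measure Ci) {x}).toReal / 4) (by positivity)
    have h2 := ENNReal.toReal_mono ENNReal.ofReal_ne_top this
    rw [ENNReal.toReal_ofReal (by positivity)] at h2
    linarith
  rw [AddCircle.volume_eq_smul_haarAddCircle] at h
  simpa using h

lemma fourier_one_eq_one {x : Ci} (h : (fourier 1 x : ℂ) = 1) : x = 0 := by
  rw [fourier_one] at h
  have h2 : AddCircle.toCircle x = AddCircle.toCircle (0 : Ci) := by
    rw [AddCircle.toCircle_zero]
    exact Subtype.ext (by simpa using h)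
  exact AddCircle.injective_toCircle one_ne_zero h2

lemma ae_ne : ∀ᵐ x : Ci ∂AddCircle.haarAddCircle, (fourier 1 x : ℂ) ≠ 1 := by
  rw [ae_iff]
  refine measure_mono_null ?_ (haar_singleton 0)
  intro x hx
  simp only [not_not, Set.mem_ofPred_eq] at hx
  exact fourier_one_eq_one hx

noncomputable def ρs (k : ℕ) : ℝ := 1 - 1 / ((k : ℝ) + 2)

lemma ρs_nonneg (k : ℕ) : 0 ≤ ρs k := by
  unfold ρs
  have : 1 / ((k : ℝ) + 2) ≤ 1 := by
    rw [div_le_one (by positivity)]
    have : (0:ℝ) ≤ k := Nat.cast_nonneg k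
    linarith
  linarith

lemma ρs_lt (k : ℕ) : ρs k < 1 := by
  unfold ρs
  have : 0 < 1 / ((k : ℝ) + 2) := by positivity
  linarith

lemma ρs_tendsto : Tendsto ρs atTop (𝓝 1) := by
  have h : Tendsto (fun k : ℕ => 1 / ((k : ℝ) + 2)) atTop (𝓝 0) := by
    have := (tendsto_one_div_add_atTop_nhds_zero_nat (𝕜 := ℝ)).comp (tendsto_add_atTop_nat 1)
    refine this.congr ?_
    intro k
    simp only [Function.comp]
    push_cast
    ring_nf
  have := (tendsto_const_nhds (x := (1:ℝ))).sub h
  rw [sub_zero] at this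
  exact this

lemma aρ_tendsto {x : Ci} (hx : (fourier 1 x : ℂ) ≠ 1) :
    Tendsto (fun k => aρ (ρs k) x) atTop (𝓝 (aρ 1 x)) := by
  unfold aρ
  have h1 : Tendsto (fun k => ((ρs k : ℝ) : ℂ) * fourier 1 x) atTop (𝓝 (((1:ℝ):ℂ) * fourier 1 x)) := by
    apply Tendsto.mul_const
    exact (Complex.continuous_ofReal.tendsto 1).comp ρs_tendsto
  refine Tendsto.comp (g := F) ?_ h1
  apply continuousAt_F
  simpa using hx

lemma coeff_a (m : ℤ) :
    fourierCoeff (aρ 1) m = if 0 ≤ m then p m.toNat else 0 := by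
  have h1 : Tendsto (fun k => fourierCoeff (aρ (ρs k)) m) atTop (𝓝 (fourierCoeff (aρ 1) m)) := by
    unfold fourierCoeff
    apply tendsto_integral_of_dominated_convergence (fun _ => (1:ℝ))
    · intro k
      apply Measurable.aestronglyMeasurable
      have : Measurable (fun x : Ci => (fourier (-m) x : ℂ)) := (map_continuous (fourier (-m))).measurable
      exact this.smul (measurable_aρ _)
    · exact integrable_const _
    · intro k
      refine Eventually.of_forall fun x => ?_
      rw [norm_smul, norm_four, one_mul]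
      exact norm_aρ_le (ρs_nonneg k) (ρs_lt k).le x
    · filter_upwards [ae_ne] with x hx
      exact (aρ_tendsto hx).const_smul _
  simp_rw [fun k => coeff_aρ (ρs_nonneg k) (ρs_lt k) m] at h1
  by_cases hm : 0 ≤ m
  · rw [if_pos hm]
    simp only [if_pos hm] at h1
    refine tendsto_nhds_unique h1 ?_
    have : Tendsto (fun k => p m.toNat * ((ρs k : ℝ) : ℂ) ^ m.toNat) atTop (𝓝 (p m.toNat * ((1:ℝ):ℂ) ^ m.toNat)) := by
      apply Tendsto.const_mul
      apply Tendsto.pow
      exact (Complex.continuous_ofReal.tendsto 1).comp ρs_tendsto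
    simpa using this
  · rw [if_neg hm]
    simp only [if_neg hm] at h1
    exact tendsto_nhds_unique h1 tendsto_const_nhds

lemma aρ_neg (x : Ci) : aρ 1 (-x) = conj (aρ 1 x) := by
  unfold aρ
  rw [← F_conj]
  congr 1
  rw [map_mul, Complex.conj_ofReal, ← fourier_neg]
  congr 1
  rw [fourier_apply, fourier_apply]
  simp

lemma norm_a (x : Ci) : ‖aρ 1 x‖ = 1 := by
  apply norm_F_eq
  rw [norm_mul, norm_four]
  simp

lemma coeff_conj (m : ℤ) : fourierCoeff (fun x => conj (aρ 1 x)) m = fourierCoeff (aρ 1) (-m) := by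
  unfold fourierCoeff
  rw [← integral_neg_eq_self]
  apply integral_congr_ae
  refine Eventually.of_forall fun x => ?_
  simp only [neg_neg]
  rw [aρ_neg, Complex.conj_conj]
  congr 1
  rw [fourier_apply, fourier_apply]
  simp

lemma coeff_conj' (m : ℤ) : fourierCoeff (fun x => conj (aρ 1 x)) m = conj (fourierCoeff (aρ 1) (-m)) := by
  unfold fourierCoeff
  rw [← integral_conj]
  apply integral_congr_ae
  refine Eventually.of_forall fun x => ?_
  simp only [neg_neg, smul_eq_mul, map_mul]
  rw [← fourier_neg]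

lemma p_real (n : ℕ) : conj (p n) = p n := by
  have h1 := coeff_conj (-(n:ℤ))
  have h2 := coeff_conj' (-(n:ℤ))
  rw [h1, neg_neg, coeff_a, if_pos (by omega), Int.toNat_natCast] at h2
  exact h2.symm

/-- real coefficients -/
noncomputable def c (n : ℕ) : ℝ := (p n).re

lemma c_eq (n : ℕ) : ((c n : ℝ) : ℂ) = p n := by
  unfold c
  exact Complex.conj_eq_iff_re.1 (p_real n)

lemma hasSum_c {r : ℝ} (h0 : 0 ≤ r) (h1 : r < 1) :
    HasSum (fun n => c n * r ^ n) (Real.exp (-((1 + r) / (1 - r)))) := by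
  have h := hasSum_F (z := (r : ℂ)) (by
    rw [Complex.norm_real, Real.norm_eq_abs, abs_of_nonneg h0]
    exact h1)
  have e : F (r : ℂ) = ((Real.exp (-((1 + r) / (1 - r))) : ℝ) : ℂ) := by
    unfold F
    push_cast
    rfl
  rw [e] at h
  have e2 : (fun n => p n * (r:ℂ) ^ n) = fun n => ((c n * r ^ n : ℝ) : ℂ) := by
    funext n
    rw [← c_eq]
    push_cast
    rfl
  rw [e2] at h
  exact Complex.hasSum_ofReal.1 h

lemma memLp_a (q : ℝ≥0∞) (k : ℤ) (μ : Measure Ci) [IsFiniteMeasure μ] :
    MemLp (fun x : Ci => (fourier k x : ℂ) * aρ 1 x) q μ := by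
  apply MemLp.of_bound _ (1:ℝ)
  · refine Eventually.of_forall fun x => ?_
    rw [norm_mul, norm_four, norm_a, one_mul]
  · apply Measurable.aestronglyMeasurable
    have : Measurable (fun x : Ci => (fourier k x : ℂ)) := (map_continuous (fourier k)).measurable
    exact this.mul (measurable_aρ _)

lemma coeff_shift (k m : ℤ) :
    fourierCoeff (fun x : Ci => (fourier k x : ℂ) * aρ 1 x) m = fourierCoeff (aρ 1) (m - k) := by
  unfold fourierCoeff
  apply integral_congr_ae
  refine Eventually.of_forall fun x => ?_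
  simp only [smul_eq_mul]
  rw [← mul_assoc, ← fourier_add, show -m + k = -(m - k) by ring]

lemma hasSum_shift (k : ℕ) :
    HasSum (fun j : ℕ => c (j + k) * c j) (if k = 0 then 1 else 0) := by
  set μ : Measure Ci := AddCircle.haarAddCircle with hμ
  let f : Lp ℂ 2 μ := (memLp_a 2 0 μ).toLp
  let g : Lp ℂ 2 μ := (memLp_a 2 (-(k:ℤ)) μ).toLp
  have hf : (f : Ci → ℂ) =ᵐ[μ] fun x : Ci => (fourier 0 x : ℂ) * aρ 1 x := (memLp_a 2 0 μ).coeFn_toLp
  have hg : (g : Ci → ℂ) =ᵐ[μ] fun x : Ci => (fourier (-(k:ℤ)) x : ℂ) * aρ 1 x :=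
    (memLp_a 2 (-(k:ℤ)) μ).coeFn_toLp
  have h := (fourierBasis (T := (1:ℝ))).hasSum_inner_mul_inner f g
  have h1 : ∀ i : ℤ, inner ℂ (fourierBasis (T := (1:ℝ)) i) g = fourierCoeff (aρ 1) (i + k) := by
    intro i
    rw [← HilbertBasis.repr_apply_apply, fourierBasis_repr, fourierCoeff_congr_ae hg, coeff_shift]
    congr 1
    ring
  have h2 : ∀ i : ℤ, inner ℂ f (fourierBasis (T := (1:ℝ)) i) = conj (fourierCoeff (aρ 1) i) := by
    intro i
    rw [← inner_conj_symm, ← HilbertBasis.repr_apply_apply, fourierBasis_repr, fourierCoeff_congr_ae hf, coeff_shift]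
    simp
  have h3 : inner ℂ f g = if k = 0 then 1 else 0 := by
    rw [MeasureTheory.L2.inner_def]
    have : ∀ᵐ x ∂μ, inner ℂ (f x) (g x) = (fourier (-(k:ℤ)) x : ℂ) := by
      filter_upwards [hf, hg] with x hx hx2
      rw [hx, hx2]
      simp only [RCLike.inner_apply, fourier_zero, one_mul]
      rw [mul_assoc, Complex.mul_conj, Complex.normSq_eq_norm_sq, norm_a]
      simp
    rw [integral_congr_ae this, int_four]
    by_cases hk : k = 0
    · simp [hk]
    · rw [if_neg (by omega), if_neg hk]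
  simp_rw [h1, h2, h3] at h
  have hinj : Function.Injective (fun n : ℕ => (n : ℤ)) := Nat.cast_injective
  have h4 := (hinj.hasSum_iff (f := fun i : ℤ => conj (fourierCoeff (aρ 1) i) * fourierCoeff (aρ 1) (i + k)) (by
    intro x hx
    have : ¬ 0 ≤ x := by
      intro h0
      exact hx ⟨x.toNat, by simp [h0]⟩
    rw [coeff_a x, if_neg this]
    simp)).2 h
  have h5 : (fun i : ℤ => conj (fourierCoeff (aρ 1) i) * fourierCoeff (aρ 1) (i + k)) ∘ (fun n : ℕ => (n : ℤ)) =
      fun j : ℕ => (((c (j + k) * c j : ℝ)) : ℂ) := by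
    funext j
    simp only [Function.comp]
    rw [coeff_a, coeff_a, if_pos (by omega), if_pos (by omega), Int.toNat_natCast,
      show ((j:ℤ) + (k:ℤ)).toNat = j + k by omega, p_real, ← c_eq, ← c_eq]
    push_cast
    ring
  rw [h5] at h4
  have h6 : (if k = 0 then (1:ℂ) else 0) = (((if k = 0 then 1 else 0 : ℝ)) : ℂ) := by
    split_ifs <;> simp
  rw [h6] at h4
  exact Complex.hasSum_ofReal.1 h4

/-- the symbols, as elements of `L∞` -/
theorem symbols : ∃ a b e : Lp ℂ ⊤ (volume : Measure Ci),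
    (∀ j k : ℕ, fourierCoeff (⇑a : Ci → ℂ) ((j : ℤ) - (k : ℤ)) = if k ≤ j then ((c (j - k) : ℝ) : ℂ) else 0) ∧
    (∀ j k : ℕ, fourierCoeff (⇑b : Ci → ℂ) ((j : ℤ) - (k : ℤ)) = if j ≤ k then ((c (k - j) : ℝ) : ℂ) else 0) ∧
    (∀ j k : ℕ, fourierCoeff (⇑e : Ci → ℂ) ((j : ℤ) - (k : ℤ)) = if j = k then 1 else 0) := by
  have hvol : (volume : Measure Ci) = AddCircle.haarAddCircle := by
    rw [AddCircle.volume_eq_smul_haarAddCircle]
    simp
  have ha : MemLp (aρ 1) ⊤ (volume : Measure Ci) := by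
    have := memLp_a ⊤ 0 (volume : Measure Ci)
    simpa using this
  have hb : MemLp (fun x => conj (aρ 1 x)) ⊤ (volume : Measure Ci) := by
    apply MemLp.of_bound _ (1:ℝ)
    · refine Eventually.of_forall fun x => ?_
      rw [RCLike.norm_conj, norm_a]
    · apply Measurable.aestronglyMeasurable
      exact (Complex.continuous_conj.measurable).comp (measurable_aρ _)
  have he : MemLp (fun x : Ci => (fourier 0 x : ℂ)) ⊤ (volume : Measure Ci) := by
    apply MemLp.of_bound _ (1:ℝ)
    · refine Eventually.of_forall fun x => ?_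
      rw [norm_four]
    · exact (map_continuous (fourier 0)).aestronglyMeasurable
  refine ⟨ha.toLp, hb.toLp, he.toLp, ?_, ?_, ?_⟩
  · intro j k
    have : (⇑(ha.toLp) : Ci → ℂ) =ᵐ[AddCircle.haarAddCircle] aρ 1 := by
      rw [← hvol]
      exact ha.coeFn_toLp
    rw [fourierCoeff_congr_ae this, coeff_a]
    by_cases h : k ≤ j
    · rw [if_pos h, if_pos (by omega), show ((j:ℤ) - (k:ℤ)).toNat = j - k by omega, c_eq]
    · rw [if_neg h, if_neg (by omega)]
  · intro j k
    have : (⇑(hb.toLp) : Ci → ℂ) =ᵐ[AddCircle.haarAddCircle] (fun x => conj (aρ 1 x)) := by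
      rw [← hvol]
      exact hb.coeFn_toLp
    rw [fourierCoeff_congr_ae this, coeff_conj, coeff_a]
    by_cases h : j ≤ k
    · rw [if_pos h, if_pos (by omega), show (-((j:ℤ) - (k:ℤ))).toNat = k - j by omega, c_eq]
    · rw [if_neg h, if_neg (by omega)]
  · intro j k
    have : (⇑(he.toLp) : Ci → ℂ) =ᵐ[AddCircle.haarAddCircle] (fun x => (fourier 0 x : ℂ)) := by
      rw [← hvol]
      exact he.coeFn_toLp
    rw [fourierCoeff_congr_ae this]
    unfold fourierCoeff
    simp only [fourier_zero, smul_eq_mul, mul_one]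
    rw [int_four]
    by_cases h : j = k
    · rw [if_pos h, if_pos (by omega)]
    · rw [if_neg h, if_neg (by omega)]

end Pool.Agent.Q199.FS
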